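import Mathlib

/-!
One-dimensional core for an interval (helper75, statement of helper93).
-/

open MeasureTheory Set Filter Topology

noncomputable section

namespace Pool.Agent.H93.CMC

private lemma CI_one (ρ : Measure ℝ) [IsFiniteMeasure ρ] {s t : ℝ} (hst : s ≤ t) :
    (∫ _x in s..t, (1:ℝ) ∂ρ) = ρ.real (Ioc s t) := by
  rw [intervalIntegral.integral_of_le hst, setIntegral_const]
  simp

private lemma CI_int (ρ : Measure ℝ) [IsFiniteMeasure ρ] (s t : ℝ) :
    IntervalIntegrable (fun _ => (1:ℝ)) ρ s t :=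
  (integrable_const (1:ℝ)).intervalIntegrable

private lemma CI_sub (ρ : Measure ℝ) [IsFiniteMeasure ρ] (s t : ℝ) :
    (∫ _x in (0:ℝ)..t, (1:ℝ) ∂ρ) - (∫ _x in (0:ℝ)..s, (1:ℝ) ∂ρ) = ∫ _x in s..t, (1:ℝ) ∂ρ :=
  intervalIntegral.integral_interval_sub_left (CI_int ρ 0 t) (CI_int ρ 0 s)

private lemma CI_neg (ρ : Measure ℝ) [IsFiniteMeasure ρ] (hsupp : ρ (Ioo 0 1)ᶜ = 0) {t : ℝ} (ht : t ≤ 0) :
    (∫ _x in (0:ℝ)..t, (1:ℝ) ∂ρ) = 0 := by
  rw [intervalIntegral.integral_symm, CI_one ρ ht]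
  have : ρ (Ioc t 0) = 0 := measure_mono_null (by
    intro x hx hx2
    exact absurd hx2.1 (not_lt.2 hx.2)) hsupp
  rw [measureReal_def, this]; simp

private lemma CI_big (ρ : Measure ℝ) [IsFiniteMeasure ρ] (hsupp : ρ (Ioo 0 1)ᶜ = 0) {t : ℝ} (ht : 1 ≤ t) :
    (∫ _x in (0:ℝ)..t, (1:ℝ) ∂ρ) = ρ.real univ := by
  rw [CI_one ρ (by linarith : (0:ℝ) ≤ t)]
  apply measureReal_congr
  rw [ae_eq_univ]
  refine measure_mono_null ?_ hsupp
  intro x hx hx2
  exact hx ⟨hx2.1, by linarith [hx2.2]⟩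

private lemma CI_U (ρ : Measure ℝ) [IsFiniteMeasure ρ] (hsupp : ρ (Ioo 0 1)ᶜ = 0)
    (hatom : ∀ c, ρ {c} = 0) (hfull : ∀ a b, 0 ≤ a → a < b → b ≤ 1 → 0 < ρ (Ioo a b)) :
    ∃ U : ℝ → ℝ, Continuous U ∧ StrictMono U ∧ U 0 = 0 ∧ U (ρ.real univ) = 1 ∧
      (∀ y ∈ Icc 0 (ρ.real univ), (∫ _x in (0:ℝ)..(U y), (1:ℝ) ∂ρ) = y) ∧
      Function.Surjective U := by
  have : NullSingletonClass ρ := ⟨hatom⟩
  set V : ℝ → ℝ := fun t => ∫ _x in (0:ℝ)..t, (1:ℝ) ∂ρ with hV
  have hVc : Continuous V := intervalIntegral.continuous_primitive (CI_int ρ) 0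
  set W : ℝ → ℝ := fun t => V t + min t 0 + max (t - 1) 0 with hW
  have hWc : Continuous W := (hVc.add (continuous_id.min continuous_const)).add
    ((continuous_id.sub continuous_const).max continuous_const)
  have hT0 : 0 ≤ ρ.real univ := measureReal_nonneg
  have hneg : ∀ t, t ≤ 0 → W t = t := by
    intro t ht
    have h1 : V t = 0 := CI_neg ρ hsupp ht
    show V t + min t 0 + max (t - 1) 0 = t
    rw [h1, min_eq_left ht, max_eq_right (by linarith)]; ring
  have hbig : ∀ t, 1 ≤ t → W t = ρ.real univ + (t - 1) := by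
    intro t ht
    have h1 : V t = ρ.real univ := CI_big ρ hsupp ht
    show V t + min t 0 + max (t - 1) 0 = _
    rw [h1, min_eq_right (by linarith), max_eq_left (by linarith)]; ring
  have hmid : ∀ t, 0 ≤ t → t ≤ 1 → W t = V t := by
    intro t h0 h1
    show V t + min t 0 + max (t - 1) 0 = _
    rw [min_eq_right h0, max_eq_right (by linarith)]; ring
  have hmono : StrictMono W := by
    intro s t hst
    have h1 : V t - V s = ρ.real (Ioc s t) := by
      rw [hV]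
      simp only
      rw [CI_sub, CI_one ρ hst.le]
    have h2 : 0 ≤ ρ.real (Ioc s t) := measureReal_nonneg
    have h3 : min s 0 ≤ min t 0 := min_le_min_right _ hst.le
    have h4 : max (s - 1) 0 ≤ max (t - 1) 0 := max_le_max_right _ (by linarith)
    show V s + min s 0 + max (s - 1) 0 < V t + min t 0 + max (t - 1) 0
    rcases le_or_gt t 0 with ht | ht
    · have h5 : min t 0 = t := min_eq_left ht
      have h6 : min s 0 = s := min_eq_left (by linarith)
      linarith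
    · rcases le_or_gt 1 s with hs | hs
      · have h5 : max (s - 1) 0 = s - 1 := max_eq_left (by linarith)
        have h6 : max (t - 1) 0 = t - 1 := max_eq_left (by linarith)
        linarith
      · have h5 : max s 0 < min t 1 := by
          rw [lt_min_iff, max_lt_iff, max_lt_iff]
          exact ⟨⟨hst, ht⟩, hs, one_pos⟩
        have h6 : 0 < ρ (Ioo (max s 0) (min t 1)) := hfull _ _ (le_max_right _ _) h5 (min_le_right _ _)
        have h7 : 0 < ρ (Ioc s t) := lt_of_lt_of_le h6 (measure_mono (by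
          intro x hx
          exact ⟨lt_of_le_of_lt (le_max_left _ _) hx.1, (lt_of_lt_of_le hx.2 (min_le_left _ _)).le⟩))
        have h8 : 0 < ρ.real (Ioc s t) := ENNReal.toReal_pos h7.ne' (measure_ne_top _ _)
        linarith
  have hsurj : Function.Surjective W := by
    intro y
    have h1 : W (min y 0) ≤ y := by rw [hneg _ (min_le_right _ _)]; exact min_le_left _ _
    have h2 : y ≤ W (max y 0 + 1) := by
      rw [hbig _ (by linarith [le_max_right y 0])]
      linarith [le_max_left y 0]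
    have h3 : min y 0 ≤ max y 0 + 1 := by
      linarith [min_le_right y 0, le_max_right y 0]
    obtain ⟨t, -, ht⟩ := intermediate_value_Icc h3 hWc.continuousOn ⟨h1, h2⟩
    exact ⟨t, ht⟩
  let e : ℝ ≃o ℝ := hmono.orderIsoOfSurjective W hsurj
  have he : ∀ t, e t = W t := fun t => rfl
  have heW : ∀ y, W (e.symm y) = y := fun y => by rw [← he]; exact e.apply_symm_apply y
  have heW' : ∀ t, e.symm (W t) = t := fun t => by rw [← he]; exact e.symm_apply_apply t
  have e0 : e.symm 0 = 0 := by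
    have := heW' 0
    rwa [hneg 0 le_rfl] at this
  have e1 : e.symm (ρ.real univ) = 1 := by
    have := heW' 1
    rwa [hbig 1 le_rfl, sub_self, add_zero] at this
  refine ⟨e.symm, e.symm.continuous, e.symm.strictMono, e0, e1, ?_, e.symm.surjective⟩
  intro y hy
  have h1 : 0 ≤ e.symm y := by rw [← e0]; exact e.symm.monotone hy.1
  have h2 : e.symm y ≤ 1 := by rw [← e1]; exact e.symm.monotone hy.2
  have h3 := heW y
  rw [hmid _ h1 h2] at h3
  exact h3

private lemma CI_der (ρ : Measure ℝ) [IsFiniteMeasure ρ] {U : ℝ → ℝ} (hUc : Continuous U) {T : ℝ}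
    (hU : ∀ y ∈ Icc 0 T, (∫ _x in (0:ℝ)..(U y), (1:ℝ) ∂ρ) = y) {h : ℝ → ℝ} (hint : Integrable h ρ)
    {y : ℝ} (hy : y ∈ Ioo 0 T) (hc : ContinuousAt h (U y)) :
    HasDerivAt (fun y => ∫ x in (0:ℝ)..(U y), h x ∂ρ) (h (U y)) y := by
  rw [hasDerivAt_iff_isLittleO]
  have hlim : Tendsto U (𝓝 y) (𝓝 (U y)) := hUc.continuousAt
  have key := intervalIntegral.measure_integral_sub_linear_isLittleO_of_tendsto_ae (μ := ρ)
    (f := h) (c := h (U y)) (l := 𝓝 (U y)) (l' := 𝓝 (U y)) (lt := 𝓝 y) (u := fun _ => U y) (v := U)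
    ⟨univ, univ_mem, hint.aestronglyMeasurable.restrict⟩
    (hc.mono_left inf_le_left) tendsto_const_nhds hlim
  have hev : ∀ᶠ z in 𝓝 y, z ∈ Ioo 0 T := Ioo_mem_nhds hy.1 hy.2
  refine (key.congr' ?_ ?_)
  · filter_upwards [hev] with z hz
    have h1 := intervalIntegral.integral_interval_sub_left (μ := ρ) (f := h) (a := 0) (b := U z) (c := U y)
      hint.intervalIntegrable hint.intervalIntegrable
    rw [← h1, intervalIntegral.integral_const', smul_eq_mul, smul_eq_mul]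
    have h2 := CI_sub ρ (U y) (U z)
    rw [hU z ⟨hz.1.le, hz.2.le⟩, hU y ⟨hy.1.le, hy.2.le⟩, intervalIntegral.integral_const', smul_eq_mul, mul_one] at h2
    rw [← h2]
  · filter_upwards [hev] with z hz
    have h2 := CI_sub ρ (U y) (U z)
    rw [hU z ⟨hz.1.le, hz.2.le⟩, hU y ⟨hy.1.le, hy.2.le⟩] at h2
    rw [← h2]

private lemma CI_pos (ρ : Measure ℝ) [IsFiniteMeasure ρ] (hsupp : ρ (Ioo 0 1)ᶜ = 0)
    (hatom : ∀ c, ρ {c} = 0) {U : ℝ → ℝ} (hUc : Continuous U) (hUm : StrictMono U) {T : ℝ} (hT : 0 < T)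
    (hU0 : U 0 = 0) (hU1 : U T = 1)
    (hU : ∀ y ∈ Icc 0 T, (∫ _x in (0:ℝ)..(U y), (1:ℝ) ∂ρ) = y) (hUs : Function.Surjective U)
    (h : ℝ → ℝ) (hh : ContinuousOn h (Ioo 0 1))
    (hG : (∃ C, ∀ t ∈ Ioo (0:ℝ) 1, C ≤ h t) → Integrable h ρ ∧ ∫ t, h t ∂ρ = 0)
    (hpos : ∀ y ∈ Ioo 0 (T / 2), 0 < h (U y) + h (U (y + T / 2))) : False := by
  have : NullSingletonClass ρ := ⟨hatom⟩
  have hU01 : ∀ y, 0 < y → y < T → U y ∈ Ioo (0:ℝ) 1 := by
    intro y h0 h1
    refine ⟨?_, ?_⟩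
    · rw [← hU0]; exact hUm h0
    · rw [← hU1]; exact hUm h1
  have hat : ∀ y, 0 < y → y < T → ContinuousAt h (U y) := fun y h0 h1 =>
    hh.continuousAt (Ioo_mem_nhds (hU01 y h0 h1).1 (hU01 y h0 h1).2)
  -- lower bound
  have hlow : ∃ C, ∀ t ∈ Ioo (0:ℝ) 1, C ≤ h t := by
    have hsub : Icc (U (T / 4)) (U (3 * T / 4)) ⊆ Ioo (0:ℝ) 1 := by
      intro x hx
      exact ⟨lt_of_lt_of_le (hU01 _ (by linarith) (by linarith)).1 hx.1,
        lt_of_le_of_lt hx.2 (hU01 _ (by linarith) (by linarith)).2⟩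
    obtain ⟨C, hC⟩ := isCompact_Icc.exists_bound_of_continuousOn (hh.mono hsub)
    refine ⟨-C, fun t ht => ?_⟩
    obtain ⟨y, rfl⟩ := hUs t
    have hy0 : 0 < y := by
      have := ht.1
      rw [← hU0] at this
      exact hUm.lt_iff_lt.1 this
    have hy1 : y < T := by
      have := ht.2
      rw [← hU1] at this
      exact hUm.lt_iff_lt.1 this
    rcases lt_or_ge y (T / 4) with h1 | h1
    · have h2 := hpos y ⟨hy0, by linarith⟩
      have h3 := hC (U (y + T / 2)) ⟨hUm.monotone (by linarith), hUm.monotone (by linarith)⟩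
      rw [Real.norm_eq_abs] at h3
      linarith [le_abs_self (h (U (y + T / 2)))]
    · rcases le_or_gt y (3 * T / 4) with h4 | h4
      · have h3 := hC (U y) ⟨hUm.monotone h1, hUm.monotone h4⟩
        rw [Real.norm_eq_abs] at h3
        linarith [neg_abs_le (h (U y))]
      · have h2 := hpos (y - T / 2) ⟨by linarith, by linarith⟩
        rw [sub_add_cancel] at h2
        have h3 := hC (U (y - T / 2)) ⟨hUm.monotone (by linarith), hUm.monotone (by linarith)⟩
        rw [Real.norm_eq_abs] at h3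
        linarith [le_abs_self (h (U (y - T / 2)))]
  obtain ⟨hint, hzero⟩ := hG hlow
  set B : ℝ → ℝ := fun t => ∫ x in (0:ℝ)..t, h x ∂ρ with hB
  have hBc : Continuous B := intervalIntegral.continuous_primitive (fun a b => hint.intervalIntegrable) 0
  have hB0 : B 0 = 0 := by simp [hB]
  have hB1 : B 1 = 0 := by
    show (∫ x in (0:ℝ)..1, h x ∂ρ) = 0
    rw [intervalIntegral.integral_of_le zero_le_one]
    have h1 : (∫ x in Ioc (0:ℝ) 1, h x ∂ρ) = ∫ x, h x ∂ρ := by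
      apply setIntegral_eq_integral_of_ae_compl_eq_zero
      have h2 : ∀ᵐ x ∂ρ, x ∈ Ioo (0:ℝ) 1 := by
        rw [ae_iff]; exact hsupp
      filter_upwards [h2] with x hx hx2
      exact absurd ⟨hx.1, hx.2.le⟩ hx2
    rw [h1, hzero]
  set Φ : ℝ → ℝ := fun y => B (U y) + B (U (y + T / 2)) with hΦ
  have hΦc : Continuous Φ := (hBc.comp hUc).add (hBc.comp (hUc.comp (continuous_id.add continuous_const)))
  have h0 : Φ 0 = Φ (T / 2) := by
    show B (U 0) + B (U (0 + T / 2)) = B (U (T / 2)) + B (U (T / 2 + T / 2))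
    rw [hU0, add_halves, hU1, hB0, hB1, zero_add, zero_add, add_zero]
  have hder : ∀ y ∈ Ioo 0 (T / 2), HasDerivAt Φ (h (U y) + h (U (y + T / 2))) y := by
    intro y hy
    have d1 := CI_der ρ hUc hU hint (y := y) ⟨hy.1, by linarith [hy.2]⟩ (hat y hy.1 (by linarith [hy.2]))
    have d2 := CI_der ρ hUc hU hint (y := y + T / 2) ⟨by linarith [hy.1], by linarith [hy.2]⟩
      (hat (y + T / 2) (by linarith [hy.1]) (by linarith [hy.2]))
    exact d1.add (d2.comp_add_const y (T / 2))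
  obtain ⟨c, hc, hc2⟩ := exists_hasDerivAt_eq_zero (half_pos hT) hΦc.continuousOn h0 hder
  exact (hpos c hc).ne' hc2

/-- One-dimensional core for an interval. -/
theorem core_interval (ρ : Measure ℝ) [IsFiniteMeasure ρ] (hsupp : ρ (Ioo 0 1)ᶜ = 0)
    (hatom : ∀ c, ρ {c} = 0) (hfull : ∀ a b, 0 ≤ a → a < b → b ≤ 1 → 0 < ρ (Ioo a b))
    (h : ℝ → ℝ) (hh : ContinuousOn h (Ioo 0 1))
    (hG : ((∃ C, ∀ t ∈ Ioo (0:ℝ) 1, C ≤ h t) ∨ (∃ C, ∀ t ∈ Ioo (0:ℝ) 1, h t ≤ C)) →
      Integrable h ρ ∧ ∫ t, h t ∂ρ = 0)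
    (v : ℝ) (hv0 : 0 < v) (hv1 : v < ρ.real univ) :
    ∃ a ∈ Ioo (0:ℝ) 1, ρ.real (Iio a) = v ∧
      ((∃ a' ∈ Ioo (0:ℝ) 1, a' ≠ a ∧ ρ.real (Ioi a') = v) ∨
        ∃ s b : ℝ, 0 < s ∧ s < b ∧ b < 1 ∧ ρ.real (Ioo s b) = v ∧ h b = - h s) := by
  have : NullSingletonClass ρ := ⟨hatom⟩
  obtain ⟨U, hUc, hUm, hU0, hU1, hU, hUs⟩ := CI_U ρ hsupp hatom hfull
  set T : ℝ := ρ.real univ with hTdef
  have hT : 0 < T := hv0.trans hv1
  have hU01 : ∀ y, 0 < y → y < T → U y ∈ Ioo (0:ℝ) 1 := by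
    intro y h0 h1
    refine ⟨?_, ?_⟩
    · rw [← hU0]; exact hUm h0
    · rw [← hU1]; exact hUm h1
  have hIio : ∀ y ∈ Icc 0 T, ρ.real (Iio (U y)) = y := by
    intro y hy
    have h0 : 0 ≤ U y := by rw [← hU0]; exact hUm.monotone hy.1
    have h1 := hU y hy
    rw [CI_one ρ h0] at h1
    refine Eq.trans ?_ h1
    apply measureReal_congr
    have h2 : (Iio (U y) : Set ℝ) =ᵐ[ρ] Iic (U y) := Iio_ae_eq_Iic
    refine h2.trans ?_
    rw [← Iic_union_Ioc_eq_Iic h0]
    have h3 : ρ (Iic 0) = 0 := by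
      refine measure_mono_null ?_ hsupp
      intro x hx hx2
      exact absurd hx2.1 (not_lt.2 hx)
    rw [ae_eq_set]
    constructor
    · refine measure_mono_null ?_ h3
      rintro x ⟨hx | hx, hx2⟩
      · exact hx
      · exact absurd hx hx2
    · refine measure_mono_null ?_ (measure_empty (μ := ρ))
      rintro x ⟨hx, hx2⟩
      exact absurd (Or.inr hx) hx2
  have hIoi : ∀ y ∈ Icc 0 T, ρ.real (Ioi (U y)) = T - y := by
    intro y hy
    have h1 := hIio y hy
    have h2 : ρ.real (Iio (U y)) = ρ.real (Iic (U y)) := measureReal_congr Iio_ae_eq_Iic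
    have h3 := measureReal_compl (μ := ρ) (measurableSet_Iic (a := U y))
    rw [compl_Iic] at h3
    rw [h3, ← h2, h1]
  have hIoo : ∀ y ∈ Icc 0 T, ∀ z ∈ Icc 0 T, y ≤ z → ρ.real (Ioo (U y) (U z)) = z - y := by
    intro y hy z hz hyz
    have h1 : ρ.real (Ioo (U y) (U z)) = ρ.real (Ioc (U y) (U z)) := measureReal_congr Ioo_ae_eq_Ioc
    rw [h1, ← CI_one ρ (hUm.monotone hyz), ← CI_sub, hU y hy, hU z hz]
  refine ⟨U v, hU01 v hv0 hv1, hIio v ⟨hv0.le, hv1.le⟩, ?_⟩
  by_cases hne : T - v = v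
  swap
  · left
    refine ⟨U (T - v), hU01 _ (by linarith) (by linarith), fun h => hne (hUm.injective h), ?_⟩
    rw [hIoi _ ⟨by linarith, by linarith⟩]; ring
  right
  have hv : v = T / 2 := by linarith
  by_contra hcon
  push Not at hcon
  have hnz : ∀ y ∈ Ioo 0 (T / 2), h (U y) + h (U (y + T / 2)) ≠ 0 := by
    intro y hy h0
    refine hcon (U y) (U (y + T / 2)) (hU01 y hy.1 (by linarith [hy.2])).1 (hUm (by linarith))
      (hU01 (y + T / 2) (by linarith [hy.1]) (by linarith [hy.2])).2 ?_ (by linarith)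
    rw [hIoo y ⟨hy.1.le, by linarith [hy.2]⟩ (y + T / 2) ⟨by linarith [hy.1], by linarith [hy.2]⟩ (by linarith), hv]
    ring
  have hψc : ContinuousOn (fun y => h (U y) + h (U (y + T / 2))) (Ioo 0 (T / 2)) := by
    refine ContinuousOn.add ?_ ?_
    · refine hh.comp hUc.continuousOn fun y hy => hU01 y hy.1 (by linarith [hy.2])
    · refine hh.comp (hUc.comp (continuous_id.add continuous_const)).continuousOn fun y hy => ?_
      exact hU01 (y + T / 2) (by linarith [hy.1]) (by linarith [hy.2])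
  have hm : T / 4 ∈ Ioo 0 (T / 2) := ⟨by linarith, by linarith⟩
  rcases lt_or_gt_of_ne (hnz _ hm) with hlt | hgt
  · -- negative everywhere
    refine CI_pos ρ hsupp hatom hUc hUm hT hU0 hU1 hU hUs (fun t => - h t) hh.neg ?_ ?_
    · rintro ⟨C, hC⟩
      obtain ⟨h1, h2⟩ := hG (Or.inr ⟨-C, fun t ht => by linarith [hC t ht]⟩)
      exact ⟨h1.neg, by rw [integral_neg, h2, neg_zero]⟩
    · intro y hy
      by_contra hle
      push Not at hle
      have h1 : 0 ≤ h (U y) + h (U (y + T / 2)) := by linarith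
      obtain ⟨z, hz, hz2⟩ := isPreconnected_Ioo.intermediate_value hm hy hψc ⟨hlt.le, h1⟩
      exact hnz z hz hz2
  · refine CI_pos ρ hsupp hatom hUc hUm hT hU0 hU1 hU hUs h hh (fun hC => hG (Or.inl hC)) ?_
    intro y hy
    by_contra hle
    push Not at hle
    obtain ⟨z, hz, hz2⟩ := isPreconnected_Ioo.intermediate_value hy hm hψc ⟨hle, hgt.le⟩
    exact hnz z hz hz2

end Pool.Agent.H93.CMC
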